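import Mathlib

namespace Pool.Agent.Results.MP_52e642_an.WeakShanks

open MvPolynomial

/-- The squared norm of a polynomial in the Hardy space of the bidisk. -/
noncomputable def h2NormSq (p : MvPolynomial (Fin 2) ℂ) : ℝ :=
  ∑ m ∈ p.support, ‖p.coeff m‖ ^ 2

/-- The zero-based position of the monomial `z₁ ^ (m 0) * z₂ ^ (m 1)` in the
degree-lexicographic sequence `1, z₁, z₂, z₁², z₁z₂, z₂², z₁³, …`. -/
def monIdx (m : Fin 2 →₀ ℕ) : ℕ := (m 0 + m 1) * (m 0 + m 1 + 1) / 2 + m 1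

/-- `p` lies in the span of the first `n + 1` monomials. -/
def InP (n : ℕ) (p : MvPolynomial (Fin 2) ℂ) : Prop := ∀ m ∈ p.support, monIdx m ≤ n

/-- `q` is an `n`-th optimal polynomial approximant of `1 / f` in `H²(𝔻²)`. -/
def IsOPA (f : MvPolynomial (Fin 2) ℂ) (n : ℕ) (q : MvPolynomial (Fin 2) ℂ) : Prop :=
  InP n q ∧ ∀ p, InP n p → h2NormSq (q * f - 1) ≤ h2NormSq (p * f - 1)

/-- exponent vector `(i, j)` -/
noncomputable def mk (i j : ℕ) : Fin 2 →₀ ℕ := Finsupp.single 0 i + Finsupp.single 1 j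

lemma mk_zero (i j : ℕ) : mk i j 0 = i := by simp [mk]

lemma mk_one (i j : ℕ) : mk i j 1 = j := by simp [mk]

lemma mk_inj {i j k l : ℕ} : mk i j = mk k l ↔ i = k ∧ j = l := by
  constructor
  · intro h
    have h0 := congrArg (fun m : Fin 2 →₀ ℕ => m 0) h
    have h1 := congrArg (fun m : Fin 2 →₀ ℕ => m 1) h
    simp only [mk_zero, mk_one] at h0 h1
    exact ⟨h0, h1⟩
  · rintro ⟨rfl, rfl⟩; rfl

lemma eq_mk (m : Fin 2 →₀ ℕ) : m = mk (m 0) (m 1) := by
  ext i
  fin_cases i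
  · simp [mk]
  · simp [mk]

/-- the polynomial with a given 5 by 5 coefficient grid -/
noncomputable def grid (c : Fin 5 → Fin 5 → ℂ) : MvPolynomial (Fin 2) ℂ :=
  ∑ x : Fin 5 × Fin 5, monomial (mk x.1 x.2) (c x.1 x.2)

lemma coeff_grid (c : Fin 5 → Fin 5 → ℂ) (i j : Fin 5) :
    (grid c).coeff (mk i j) = c i j := by
  unfold grid
  rw [coeff_sum, Finset.sum_eq_single (i, j)]
  · simp
  · rintro ⟨k, l⟩ - hne
    rw [coeff_monomial, if_neg]
    intro h
    rw [mk_inj] at h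
    apply hne
    ext
    · simpa using h.1
    · simpa using h.2
  · simp

lemma h2_grid (c : Fin 5 → Fin 5 → ℂ) :
    h2NormSq (grid c) = ∑ x : Fin 5 × Fin 5, ‖c x.1 x.2‖ ^ 2 := by
  unfold h2NormSq
  have hinj : Function.Injective (fun x : Fin 5 × Fin 5 => mk x.1 x.2) := by
    rintro ⟨i, j⟩ ⟨k, l⟩ h
    simp only at h
    rw [mk_inj] at h
    ext
    · simpa using h.1
    · simpa using h.2
  have hsub : (grid c).support ⊆ (Finset.univ : Finset (Fin 5 × Fin 5)).map ⟨_, hinj⟩ := by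
    intro m hm
    rw [mem_support_iff] at hm
    by_contra hcon
    apply hm
    unfold grid
    rw [coeff_sum]
    apply Finset.sum_eq_zero
    rintro ⟨k, l⟩ -
    rw [coeff_monomial, if_neg]
    intro h
    apply hcon
    simp only [Finset.mem_map, Finset.mem_univ, true_and]
    exact ⟨(k, l), h⟩
  rw [Finset.sum_subset hsub]
  · rw [Finset.sum_map]
    apply Finset.sum_congr rfl
    rintro ⟨k, l⟩ -
    simp only [Function.Embedding.coeFn_mk]
    rw [coeff_grid]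
  · intro m _ hm
    rw [notMem_support_iff] at hm
    simp [hm]

/-- the polynomial `(2 + z₁z₂)² (4 + 3z₁) (4 + 3z₂)` -/
noncomputable def F : MvPolynomial (Fin 2) ℂ :=
  (2 + X 0 * X 1) ^ 2 * (4 + 3 * X 0) * (4 + 3 * X 1)

/-- coefficient grid of `(a + b z₁ + c z₂) F - 1` -/
def M (a b c : ℂ) : Fin 5 → Fin 5 → ℂ :=
  ![![64 * a - 1, 48 * a + 64 * c, 48 * c, 0, 0],
    ![48 * a + 64 * b, 100 * a + 48 * b + 48 * c, 48 * a + 100 * c, 48 * c, 0],
    ![48 * b, 48 * a + 100 * b, 52 * a + 48 * b + 48 * c, 12 * a + 52 * c, 12 * c],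
    ![0, 48 * b, 12 * a + 52 * b, 9 * a + 12 * b + 12 * c, 9 * c],
    ![0, 0, 12 * b, 9 * b, 0]]

lemma monomial_mk (i j : ℕ) (r : ℂ) : monomial (mk i j) r = C r * X 0 ^ i * X 1 ^ j := by
  unfold mk
  rw [X_pow_eq_monomial, X_pow_eq_monomial, mul_assoc, monomial_mul, C_mul_monomial]
  simp

lemma expand (a b c : ℂ) : (C a + C b * X 0 + C c * X 1) * F - 1 = grid (M a b c) := by
  unfold grid
  rw [Fintype.sum_prod_type]
  simp only [monomial_mk, Fin.sum_univ_succ, M, F]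
  simp [map_ofNat]
  ring

/-- the quadratic form of the problem, real version -/
lemma sum_grid (a b c : ℂ) :
    h2NormSq ((C a + C b * X 0 + C c * X 1) * F - 1) =
      ∑ i : Fin 5, ∑ j : Fin 5, ‖M a b c i j‖ ^ 2 := by
  rw [expand, h2_grid, Fintype.sum_prod_type]

/-- the real quadratic form -/
def Q (d a b c : ℝ) : ℝ :=
  (64 * a - d) ^ 2 + (48 * a + 64 * c) ^ 2 + (48 * c) ^ 2
    + (48 * a + 64 * b) ^ 2 + (100 * a + 48 * b + 48 * c) ^ 2 + (48 * a + 100 * c) ^ 2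
    + (48 * c) ^ 2
    + (48 * b) ^ 2 + (48 * a + 100 * b) ^ 2 + (52 * a + 48 * b + 48 * c) ^ 2
    + (12 * a + 52 * c) ^ 2 + (12 * c) ^ 2
    + (48 * b) ^ 2 + (12 * a + 52 * b) ^ 2 + (9 * a + 12 * b + 12 * c) ^ 2 + (9 * c) ^ 2
    + (12 * b) ^ 2 + (9 * b) ^ 2

lemma sum_eq_Q (a b c : ℂ) :
    h2NormSq ((C a + C b * X 0 + C c * X 1) * F - 1) =
      Q 1 a.re b.re c.re + Q 0 a.im b.im c.im := by
  rw [sum_grid]
  simp only [Fin.sum_univ_succ, M, Q, Complex.sq_norm, Complex.normSq_apply]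
  simp
  ring

noncomputable def A0 : ℝ := 664256 / 105309915
noncomputable def B0 : ℝ := - 339200 / 105309915

lemma Q_min (a b c : ℝ) :
    Q 1 a b c = Q 1 A0 B0 B0 + Q 0 (a - A0) (b - B0) (c - B0) := by
  unfold Q A0 B0
  ring

lemma Q_zero : Q 0 0 0 0 = 0 := by
  unfold Q; norm_num

lemma Q_nonneg (a b c : ℝ) : 0 ≤ Q 0 a b c := by
  unfold Q; positivity

lemma Q_eq_zero {a b c : ℝ} (h : Q 0 a b c = 0) : a = 0 ∧ b = 0 ∧ c = 0 := by
  have h1 : (64 * a - 0) ^ 2 ≤ Q 0 a b c := by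
    unfold Q
    have : 0 ≤ (48 * a + 64 * c) ^ 2 + (48 * c) ^ 2
      + (48 * a + 64 * b) ^ 2 + (100 * a + 48 * b + 48 * c) ^ 2 + (48 * a + 100 * c) ^ 2
      + (48 * c) ^ 2
      + (48 * b) ^ 2 + (48 * a + 100 * b) ^ 2 + (52 * a + 48 * b + 48 * c) ^ 2
      + (12 * a + 52 * c) ^ 2 + (12 * c) ^ 2
      + (48 * b) ^ 2 + (12 * a + 52 * b) ^ 2 + (9 * a + 12 * b + 12 * c) ^ 2 + (9 * c) ^ 2
      + (12 * b) ^ 2 + (9 * b) ^ 2 := by positivity
    linarith
  have h2 : (9 * b) ^ 2 ≤ Q 0 a b c := by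
    unfold Q
    have : 0 ≤ (64 * a - 0) ^ 2 + (48 * a + 64 * c) ^ 2 + (48 * c) ^ 2
      + (48 * a + 64 * b) ^ 2 + (100 * a + 48 * b + 48 * c) ^ 2 + (48 * a + 100 * c) ^ 2
      + (48 * c) ^ 2
      + (48 * b) ^ 2 + (48 * a + 100 * b) ^ 2 + (52 * a + 48 * b + 48 * c) ^ 2
      + (12 * a + 52 * c) ^ 2 + (12 * c) ^ 2
      + (48 * b) ^ 2 + (12 * a + 52 * b) ^ 2 + (9 * a + 12 * b + 12 * c) ^ 2 + (9 * c) ^ 2
      + (12 * b) ^ 2 := by positivity
    linarith
  have h3 : (9 * c) ^ 2 ≤ Q 0 a b c := by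
    unfold Q
    have : 0 ≤ (64 * a - 0) ^ 2 + (48 * a + 64 * c) ^ 2 + (48 * c) ^ 2
      + (48 * a + 64 * b) ^ 2 + (100 * a + 48 * b + 48 * c) ^ 2 + (48 * a + 100 * c) ^ 2
      + (48 * c) ^ 2
      + (48 * b) ^ 2 + (48 * a + 100 * b) ^ 2 + (52 * a + 48 * b + 48 * c) ^ 2
      + (12 * a + 52 * c) ^ 2 + (12 * c) ^ 2
      + (48 * b) ^ 2 + (12 * a + 52 * b) ^ 2 + (9 * a + 12 * b + 12 * c) ^ 2
      + (12 * b) ^ 2 + (9 * b) ^ 2 := by positivity
    linarith
  rw [h] at h1 h2 h3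
  refine ⟨?_, ?_, ?_⟩
  · have := pow_eq_zero_iff (two_ne_zero) |>.1 (le_antisymm h1 (sq_nonneg _)); linarith
  · have := pow_eq_zero_iff (two_ne_zero) |>.1 (le_antisymm h2 (sq_nonneg _)); linarith
  · have := pow_eq_zero_iff (two_ne_zero) |>.1 (le_antisymm h3 (sq_nonneg _)); linarith

lemma monIdx_le_two {m : Fin 2 →₀ ℕ} (h : monIdx m ≤ 2) :
    m = mk 0 0 ∨ m = mk 1 0 ∨ m = mk 0 1 := by
  rw [eq_mk m] at h ⊢
  simp only [mk_inj]
  unfold monIdx at h
  rw [mk_zero, mk_one] at h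
  generalize m 0 = i at *
  generalize m 1 = j at *
  have hd : i + j < 2 := by
    by_contra hcon
    push Not at hcon
    have h6 : 6 ≤ (i + j) * (i + j + 1) := by nlinarith
    have h3 : 3 ≤ (i + j) * (i + j + 1) / 2 := by omega
    omega
  have hi : i ≤ 1 := by omega
  have hj : j ≤ 1 := by omega
  interval_cases i <;> interval_cases j <;> simp_all

lemma inP_two {p : MvPolynomial (Fin 2) ℂ} (h : InP 2 p) :
    p = C (p.coeff (mk 0 0)) + C (p.coeff (mk 1 0)) * X 0 + C (p.coeff (mk 0 1)) * X 1 := by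
  have h00 : (C (p.coeff (mk 0 0)) : MvPolynomial (Fin 2) ℂ)
      = monomial (mk 0 0) (p.coeff (mk 0 0)) := by rw [monomial_mk]; simp
  have h10 : (C (p.coeff (mk 1 0)) * X 0 : MvPolynomial (Fin 2) ℂ)
      = monomial (mk 1 0) (p.coeff (mk 1 0)) := by rw [monomial_mk]; simp
  have h01 : (C (p.coeff (mk 0 1)) * X 1 : MvPolynomial (Fin 2) ℂ)
      = monomial (mk 0 1) (p.coeff (mk 0 1)) := by rw [monomial_mk]; simp
  rw [h00, h10, h01]
  ext m
  simp only [coeff_add, coeff_monomial]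
  by_cases hm : p.coeff m = 0
  · rw [hm]
    have e1 : (if mk 0 0 = m then coeff (mk 0 0) p else 0) = 0 := by
      split_ifs with h1
      · rw [h1]; exact hm
      · rfl
    have e2 : (if mk 1 0 = m then coeff (mk 1 0) p else 0) = 0 := by
      split_ifs with h1
      · rw [h1]; exact hm
      · rfl
    have e3 : (if mk 0 1 = m then coeff (mk 0 1) p else 0) = 0 := by
      split_ifs with h1
      · rw [h1]; exact hm
      · rfl
    rw [e1, e2, e3]; simp
  · have hmem : m ∈ p.support := mem_support_iff.2 hm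
    rcases monIdx_le_two (h m hmem) with rfl | rfl | rfl
    · simp [mk_inj]
    · simp [mk_inj]
    · simp [mk_inj]

/-- the approximant -/
noncomputable def q : MvPolynomial (Fin 2) ℂ :=
  C (A0 : ℂ) + C (B0 : ℂ) * X 0 + C (B0 : ℂ) * X 1

lemma q_inP : InP 2 q := by
  intro m hm
  rw [mem_support_iff] at hm
  by_contra hcon
  apply hm
  have e : q = monomial (mk 0 0) (A0 : ℂ) + monomial (mk 1 0) (B0 : ℂ)
      + monomial (mk 0 1) (B0 : ℂ) := by
    unfold q
    simp only [monomial_mk]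
    simp
  rw [e]
  simp only [coeff_add, coeff_monomial]
  have h1 : ¬ mk 0 0 = m := by
    rintro rfl; apply hcon; simp [monIdx, mk_zero, mk_one]
  have h2 : ¬ mk 1 0 = m := by
    rintro rfl; apply hcon; simp [monIdx, mk_zero, mk_one]
  have h3 : ¬ mk 0 1 = m := by
    rintro rfl; apply hcon; simp [monIdx, mk_zero, mk_one]
  simp [h1, h2, h3]

lemma q_val : h2NormSq (q * F - 1) = Q 1 A0 B0 B0 := by
  unfold q
  rw [sum_eq_Q]
  simp [Q_zero]

/-- The weak Shanks conjecture on the bidisk fails: there is a polynomial `f` with no zeros on the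
closed bidisk, an index `n` and the (unique) `n`-th optimal polynomial approximant `q` of `1 / f`
in `H²(𝔻²)`, which vanishes at some point of the open bidisk. -/
theorem result :
    ∃ f : MvPolynomial (Fin 2) ℂ,
      (∀ z : Fin 2 → ℂ, (∀ i, ‖z i‖ ≤ 1) → eval z f ≠ 0) ∧
      ∃ (n : ℕ) (q : MvPolynomial (Fin 2) ℂ),
        IsOPA f n q ∧ (∀ q', IsOPA f n q' → q' = q) ∧
        ∃ z : Fin 2 → ℂ, (∀ i, ‖z i‖ < 1) ∧ eval z q = 0 := by
  refine ⟨F, ?_, 2, q, ⟨q_inP, ?_⟩, ?_, fun _ => ((10379 / 10600 : ℝ) : ℂ), ?_, ?_⟩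
  · intro z hz
    have h0 := hz 0
    have h1 := hz 1
    unfold F
    simp only [map_mul, map_pow, map_add, map_ofNat, eval_X]
    refine mul_ne_zero (mul_ne_zero (pow_ne_zero _ ?_) ?_) ?_
    · intro h
      have e : z 0 * z 1 = -2 := by linear_combination h
      have : ‖z 0 * z 1‖ = 2 := by rw [e]; simp
      rw [norm_mul] at this
      nlinarith [norm_nonneg (z 0), norm_nonneg (z 1)]
    · intro h
      have e : 3 * z 0 = -4 := by linear_combination h
      have : ‖3 * z 0‖ = 4 := by rw [e]; simp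
      rw [norm_mul] at this
      norm_num at this
      linarith
    · intro h
      have e : 3 * z 1 = -4 := by linear_combination h
      have : ‖3 * z 1‖ = 4 := by rw [e]; simp
      rw [norm_mul] at this
      norm_num at this
      linarith
  · intro p hp
    rw [q_val, inP_two hp, sum_eq_Q, Q_min (coeff (mk 0 0) p).re]
    have h1 := Q_nonneg ((coeff (mk 0 0) p).re - A0) ((coeff (mk 1 0) p).re - B0)
      ((coeff (mk 0 1) p).re - B0)
    have h2 := Q_nonneg (coeff (mk 0 0) p).im (coeff (mk 1 0) p).im (coeff (mk 0 1) p).im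
    linarith
  · rintro p ⟨hp, hmin⟩
    have h := hmin q q_inP
    rw [q_val, inP_two hp, sum_eq_Q, Q_min (coeff (mk 0 0) p).re] at h
    have h1 := Q_nonneg ((coeff (mk 0 0) p).re - A0) ((coeff (mk 1 0) p).re - B0)
      ((coeff (mk 0 1) p).re - B0)
    have h2 := Q_nonneg (coeff (mk 0 0) p).im (coeff (mk 1 0) p).im (coeff (mk 0 1) p).im
    obtain ⟨a1, a2, a3⟩ := Q_eq_zero (le_antisymm (by linarith) h1)
    obtain ⟨b1, b2, b3⟩ := Q_eq_zero (le_antisymm (by linarith) h2)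
    have ea : coeff (mk 0 0) p = (A0 : ℂ) := by
      apply Complex.ext <;> simp <;> linarith
    have eb : coeff (mk 1 0) p = (B0 : ℂ) := by
      apply Complex.ext <;> simp <;> linarith
    have ec : coeff (mk 0 1) p = (B0 : ℂ) := by
      apply Complex.ext <;> simp <;> linarith
    rw [inP_two hp, ea, eb, ec]
    rfl
  · intro i
    rw [Complex.norm_real]
    norm_num
  · unfold q
    simp only [map_add, map_mul, eval_C, eval_X]
    rw [← Complex.ofReal_mul, ← Complex.ofReal_add, ← Complex.ofReal_add]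
    norm_num [A0, B0]

end Pool.Agent.Results.MP_52e642_an.WeakShanks
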